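import Pool.Agent.H63N.FJ.Tfs
import Pool.Agent.H63N.FJ.HyperS

/-!
# Farrell–Jones groups: locally polycyclic kernels with torsion-free approximations

`C` is any class of groups with the closure properties `ClosedE C`: it contains `ℤ` and is closed
under subgroups, finite products, free products, overgroups of finite index, directed colimits and
satisfies the extension criterion with virtually cyclic subgroups. All this is known for the class of
the groups which satisfy the Farrell–Jones conjecture for A-theory with coefficients and finite wreath
products, and this class contains the solvable groups.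

(1) Let `N` be a normal subgroup of `G` such that `G / N` is in `C` and all finitely generated subgroups
of `N` are poly-(periodic or cyclic), for instance virtually polycyclic. If the normal subgroups `K` of
`G` such that `G / K` is in `C` and `N / (N ∩ K)` is torsion-free have trivial intersection with `N`,
then `G` is in `C`. (Neither the order of growth nor the Hirsch length of the finitely generated
subgroups of `N` is bounded, and `G` need not have finitely generated subgroups embedding in a `G / K`.)

(2) Let `C` contain the solvable groups. If `N` is residually (torsion-free solvable) and all its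
finitely generated subgroups are poly-(periodic or cyclic), then every extension of `N` by a group in
`C` is in `C`.

(3) `C` then contains all groups which have an ascending (transfinite) series of normal subgroups whose
factors are solvable, or locally finite, or as `N` in (2), and all groups whose finitely generated
subgroups have such a series.
-/

set_option autoImplicit false

namespace Pool.Agent.Results.MP_2a547c_gt.LocallyPolycyclicKernels

open Pool.Agent.Y110.FJ (ClosedE)
open Pool.Agent
open Pool.Agent.H65FJ (of_eq of_fg solv_sup lf_sup)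

/-- the subgroup `B` has a finite series of subgroups, each normal in the next one, with periodic or
cyclic factors -/
def PolyPC {G : Type} [Group G] (B : Subgroup G) : Prop :=
  ∃ (n : ℕ) (f : ℕ → Subgroup G), f 0 = ⊥ ∧ f n = B ∧ ∀ i < n, f i ≤ f (i + 1) ∧
    (∀ x ∈ f (i + 1), ∀ y ∈ f i, x * y * x⁻¹ ∈ f i) ∧
    ((∀ x ∈ f (i + 1), ∃ m : ℕ, 0 < m ∧ x ^ m ∈ f i) ∨
      ∃ c ∈ f (i + 1), ∀ x ∈ f (i + 1), ∃ k : ℤ, x * c ^ k ∈ f i)

/-- every finitely generated subgroup is poly-(periodic or cyclic) -/
def LocallyPolyPC (M : Type) [Group M] : Prop :=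
  ∀ E : Set M, E.Finite → PolyPC (Subgroup.closure E)

/-- residually (torsion-free solvable) -/
def ResiduallyTFSolvable (M : Type) [Group M] : Prop :=
  ∀ x : M, x ≠ 1 → ∃ (K : Subgroup M) (_ : K.Normal), x ∉ K ∧ Group.IsSolvable (M ⧸ K) ∧
    ∀ (y : M) (m : ℕ), 0 < m → y ^ m ∈ K → y ∈ K

/-- every finitely generated subgroup is finite -/
def LocallyFinite (M : Type) [Group M] : Prop :=
  ∀ s : Finset M, Finite (Subgroup.closure (s : Set M))

/-- `G` has an ascending (transfinite) series of normal subgroups each factor of which is solvable, or
locally finite, or locally poly-(periodic or cyclic) and residually (torsion-free solvable). Formally,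
there is a set `S` of normal subgroups of `G` (the members of the series) which contains the trivial
subgroup and the unions of its nonempty chains, such that each proper subgroup `K` in `S` is contained
in a larger `L` in `S` such that `L / K` is a factor as above. -/
def HasSeries (G : Type) [Group G] : Prop :=
  ∃ S : Set (Subgroup G), ⊥ ∈ S ∧ (∀ K ∈ S, K.Normal) ∧
    (∀ T ⊆ S, T.Nonempty → IsChain (· ≤ ·) T → sSup T ∈ S) ∧
    ∀ (K : Subgroup G) [K.Normal], K ∈ S → K ≠ ⊤ → ∃ L ∈ S, K < L ∧
      (Group.IsSolvable ↥(L.map (QuotientGroup.mk' K)) ∨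
        LocallyFinite ↥(L.map (QuotientGroup.mk' K)) ∨
        (LocallyPolyPC ↥(L.map (QuotientGroup.mk' K)) ∧
          ResiduallyTFSolvable ↥(L.map (QuotientGroup.mk' K))))

theorem series_mem {C : ∀ (G : Type) [Group G], Prop} (hC : ClosedE C)
    (hS : ∀ (G : Type) [Group G], Group.IsSolvable G → C G) (G : Type) [Group G]
    (h : HasSeries G) : C G := by
  obtain ⟨S, h0, hN, hsup, hst⟩ := h
  refine H63N.FJ.hyperS hC G S h0 hsup (fun K _ hKS hK => ?_)
  obtain ⟨L, hLS, hKL, hLK⟩ := hst K hKS hK
  refine ⟨L, hN L hLS, hLS, hKL, fun g => ?_⟩
  have h1 : (L ⊔ Subgroup.zpowers g).map (QuotientGroup.mk' K) =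
      L.map (QuotientGroup.mk' K) ⊔ Subgroup.zpowers (QuotientGroup.mk' K g) := by
    rw [Subgroup.map_sup, MonoidHom.map_zpowers]
  have hn : (L.map (QuotientGroup.mk' K)).Normal :=
    Subgroup.Normal.map (hN L hLS) _ (QuotientGroup.mk'_surjective K)
  refine of_eq h1.symm ?_
  rcases hLK with h2 | h2 | ⟨h2, h3⟩
  · exact hS _ (solv_sup _ _ h2)
  · exact lf_sup hC _ _ h2
  · exact H63N.FJ.tfs_sup hC hS _ _ h2 h3

/-- Let `C` be a class of groups with the closure properties `ClosedE C`.
(1) Let `N` be normal in `G`, `G / N` in `C`, and let all finitely generated subgroups of `N` be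
poly-(periodic or cyclic). If each `x ≠ 1` in `N` lies outside of a normal subgroup `K` of `G` such that
`G / K` is in `C` and `N / (N ∩ K)` is torsion-free, then `G` is in `C`.
(2) Let `C` contain the solvable groups. If `N` is normal in `G`, locally poly-(periodic or cyclic) and
residually (torsion-free solvable), and `G / N` is in `C`, then `G` is in `C`.
(3) If `C` contains the solvable groups, it contains the groups with the property `HasSeries` and the
groups whose finitely generated subgroups have it. -/
theorem result (C : ∀ (G : Type) [Group G], Prop) (hC : ClosedE C) :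
    (∀ (G : Type) [Group G] (N : Subgroup G) [N.Normal], C (G ⧸ N) →
      (∀ E : Set G, E.Finite → E ⊆ N → PolyPC (Subgroup.closure E)) →
      (∀ x ∈ N, x ≠ 1 → ∃ (K : Subgroup G) (_ : K.Normal), x ∉ K ∧ C (G ⧸ K) ∧
        ∀ y ∈ N, ∀ m : ℕ, 0 < m → y ^ m ∈ K → y ∈ K) → C G) ∧
    ((∀ (G : Type) [Group G], Group.IsSolvable G → C G) →
      (∀ (G : Type) [Group G] (N : Subgroup G) [N.Normal], LocallyPolyPC ↥N →
        ResiduallyTFSolvable ↥N → C (G ⧸ N) → C G) ∧
      (∀ (G : Type) [Group G], HasSeries G → C G) ∧
      (∀ (G : Type) [Group G], (∀ s : Finset G, HasSeries ↥(Subgroup.closure (s : Set G))) →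
        C G)) := by
  refine ⟨?_, fun hS => ⟨?_, ?_, ?_⟩⟩
  · intro G _ N _ hQ h1 h2
    exact H63N.FJ.residual hC N hQ h1 h2
  · intro G _ N _ h1 h2 hQ
    exact H63N.FJ.tfs_ext hC hS N hQ h1 h2
  · intro G _ h
    exact series_mem hC hS G h
  · intro G _ h
    exact of_fg hC.base G (fun s => series_mem hC hS _ (h s))

end Pool.Agent.Results.MP_2a547c_gt.LocallyPolycyclicKernels
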